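import Pool.Agent.N422.NWS.Stm
import Pool.Agent.N422.NW.MER

/-!
# The primes in the blocks, upper bound (project NWS, package MER2)
-/

set_option autoImplicit false

namespace Pool.Agent.U23.NWS

open Finset Filter Topology Pool.Agent.N422.NW

theorem t_MER2 : Pool.Agent.N422.NWS.S_MER2 := by
  intro m n η hm hmn hη
  have hn0 : (0 : ℝ) < n := by exact_mod_cast (by omega : 0 < n)
  have h2 : ∀ᶠ Q : ℕ in atTop, ∀ j ∈ Finset.Ico m n,
      MER_L ⌊(Q : ℝ) ^ (((j : ℝ) + 1) / n)⌋₊ - MER_L ⌊(Q : ℝ) ^ ((j : ℝ) / n)⌋₊ <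
        Real.log (((j : ℝ) + 1) / j) + η := by
    rw [Filter.eventually_all_finset]
    intro j hj
    rw [Finset.mem_Ico] at hj
    have hj0 : (0 : ℝ) < j := by exact_mod_cast (by omega : 0 < j)
    have h3 := MER_lim (c := (j : ℝ) / n) (d := ((j : ℝ) + 1) / n) (by positivity) (by positivity)
    rw [div_div_div_cancel_right₀ hn0.ne'] at h3
    exact h3.eventually_lt_const (by linarith)
  obtain ⟨Q0, hQ0⟩ := Filter.eventually_atTop.1 h2
  refine ⟨max Q0 2, fun Q hQ j hmj hjn => ?_⟩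
  have h4 := hQ0 Q ((le_max_left _ _).trans hQ)
  have hQ2 : 2 ≤ Q := (le_max_right _ _).trans hQ
  have h5 := h4 j (Finset.mem_Ico.2 ⟨hmj, hjn⟩)
  rw [← MER_sum (by omega) hjn] at h5
  exact h5.le

end Pool.Agent.U23.NWS
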